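import Pool.Agent.R370.TZ.E

/-!
# The Zilber–Pink conjecture for variations of mixed Hodge structure, by transcendence degrees

Let `k ⊆ K` be algebraically closed fields, for instance `K = ℂ` and `k` countable. Let `X` be a
quasi-projective variety over `K` with a special structure: a countable collection `𝒮` of subvarieties
(irreducible Zariski closed subsets) of `X`, called special, which contains the irreducible components
of the intersections of its members, and a function `h` on `𝒮`. We assume that `X` and all special
subvarieties are defined over `k`. The example to have in mind: `X` carries an admissible variation
of mixed Hodge structure with finite period map, `𝒮` are the special subvarieties together with `X`,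
`h S` is the dimension of the mixed Mumford–Tate domain of `S`, and `k` is a countable algebraically
closed field of definition of `X` and of its countably many special subvarieties (the field of
algebraic numbers for a mixed Shimura variety).

For a subvariety `A` of `X` put `defect A = h (hull A) - dim A` (`hdefect`), where `hull A` is the
smallest special subvariety containing `A`. The union of the atypical special subvarieties of a
subvariety `V` of `X` (for the restricted variation) is the union of all subvarieties `A ⊆ V` with
`defect A < defect V`. A subvariety `A` of `V` is optimal (`OptimalH`) if all larger subvarieties of `V`
have larger defect. The dimension of `A` over `k` (`kdim`) is the dimension of the smallest closed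
subset of `X` defined over `k` which contains `A`; for a point `x` it is the transcendence degree over
`k` of the (ratios of the) coordinates of `x`, and it is `0` iff `x` is defined over `k`.

Theorem. Let `n` and `d` be integers. The following are equivalent:
(1) `AtypicalNotDense`: for every `V` DEFINED OVER `k` (all `V` are contained in special
subvarieties) the union of the subvarieties `A` of `V` defined over `k`, of dimension at least `n` and
codimension in `V` at most `d`, with `defect A < defect V`, is not Zariski dense in `V`.
(2) `OptimalFinite`: every `V` defined over `k` has only finitely many optimal subvarieties of
dimension at least `n` and codimension at most `d`.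
(3) `OptimalFiniteK`: every `V` over `K` has only finitely many optimal subvarieties of dimension over
`k` at least `n` and codimension at most `d`.
(4) `AtypicalNotDenseK`: for every `V` over `K` the union of the subvarieties `A` of `V` of dimension
over `k` at least `n` and codimension at most `d`, with `defect A < defect V`, is not Zariski dense.
If the transcendence degree of `K` over `k` is infinite, they are equivalent to
(5) `PointsNotDenseK`: for every `V` over `K` of dimension at most `d` the points `x` of `V` with
`defect x < defect V` of transcendence degree at least `n` over `k` are not Zariski dense in `V`.
(6) `OptimalPointsFiniteK`: every `V` over `K` of dimension at most `d` has only finitely many optimal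
points of transcendence degree at least `n` over `k`.

Examples. For `n = 0` and large `d` this says that the question Q1 for all the restrictions of the
variation is equivalent to Q1 for those to subvarieties defined over `k`. For `n = 1` and large `d`:
the geometric part of Q1 over `k` (non-density of the positive dimensional atypical subvarieties,
for all `V` defined over `k`) is equivalent to the statement that for all `V` over `K` all but finitely
many optimal subvarieties are points defined over `k`. For `n = 0` and `d = 1`: Q1 for curves over `K`
is equivalent to the finiteness of the number of optimal divisors of the `V` defined over `k`.

The proof of (1) implies (3): let `V₀` be the closure of `V` over `k` and `r = dim V₀ - dim V`.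
Outside of a proper closed subset `D` of `V` the dimension over `k` of the subvarieties `A ⊆ V` is at
least `dim A + r` (`exists_jump`, from the relations between the generic point of `V` and the
coefficients of the equations of `V`). So the closures over `k` of the `A ⊆ V` with
`defect A < defect V`, not contained in `D`, are subvarieties of `V₀` of defect less than
`defect V₀`, of dimension at least `n` and codimension at most `d`. They are in a proper closed subset
of `V₀`, so the `A` are in a proper closed subset of `V` (`exists_cover`), and one can use induction on
`dim V`. (6) implies (3): very general hyperplane sections. The definitions are in
`Pool.Agent.R948.ZPa`, `Pool.Agent.R948.ZPe`, `Pool.Agent.R370.HS.B` and `Pool.Agent.R370.TZ.{C,E}`;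
points of projective space are nonzero vectors up to scalars, subsets are given by their cones.
-/

set_option autoImplicit false

open Pool.Agent.R948.ZP Pool.Agent.R370.HS Pool.Agent.R370.TZ

/-- **The Zilber–Pink conjecture by transcendence degrees.** -/
theorem Pool.Agent.Results.MP_eeb1a4_ag.ByTranscendenceDegree.result
    (k K : Type) [Field k] [Field K] [Algebra k K] [IsAlgClosed k] [IsAlgClosed K]
    (ι : Type) [Fintype ι] (X : Set (ι → K)) (hX : QuasiProjective X)
    (𝒮 : Set (Set (ι → K))) (h𝒮 : SpecialStructure X 𝒮) (hk : DefinedOver k X 𝒮)
    (h : Set (ι → K) → ℤ) (n d : ℤ) :
    List.TFAE [AtypicalNotDense k X 𝒮 h n d, OptimalFinite k X 𝒮 h n d,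
      OptimalFiniteK k X 𝒮 h n d, AtypicalNotDenseK k X 𝒮 h n d] ∧
    (Cardinal.aleph0 ≤ Algebra.trdeg k K →
      List.TFAE [AtypicalNotDense k X 𝒮 h n d, OptimalFinite k X 𝒮 h n d,
        OptimalFiniteK k X 𝒮 h n d, AtypicalNotDenseK k X 𝒮 h n d, PointsNotDenseK k X 𝒮 h n d,
        OptimalPointsFiniteK k X 𝒮 h n d]) :=
  ⟨by_degree hX h𝒮 hk h n d, fun hbig => by_degree_points hX h𝒮 hk hbig h n d⟩
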