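import Pool.Agent.R370.HS.D

/-!
# Atypical Hodge loci of very general hyperplane sections

Let `K` be an uncountable algebraically closed field, for instance the field of complex numbers, and
let `X` be a quasi-projective variety over `K` with a special structure: a countable collection `𝒮`
of subvarieties (irreducible Zariski closed subsets) of `X`, called special, which contains the
irreducible components of the intersections of its members, and any function `h` on `𝒮`. The
example to have in mind: `X` carries an admissible variation of mixed Hodge structure with finite
period map (by Bakker, Brunebarbe and Tsimerman Q1 reduces to this case), `𝒮` are the special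
subvarieties together with `X`, and `h S` is the dimension of the mixed Mumford–Tate domain of `S`.
For a subvariety `A` of `X` put `defect A = h (hull A) - dim A`, where `hull A` is the smallest
special subvariety containing `A`.

For a subvariety `V` of `X` the special subvarieties of `V` (for the restricted variation) are the
subvarieties `Z` of `V` which are components of `V ∩ hull Z`; such a `Z` is atypical if
`defect Z < defect V`, in other words if the codimension of `Z` in `V` is not the codimension of its
Mumford–Tate domain in that of `V`. `maxAtypical X 𝒮 h V` is the set of the maximal atypical special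
subvarieties of `V`, and Q1 for `V` says that it is finite. More generally
`maxSpecial X 𝒮 h Y θ` is the set of the maximal elements of the set of the special subvarieties of
a closed set `Y` of defect less than `θ`.

Theorem. Let `V` be a subvariety of a special subvariety of `X`, and let `H = hyp u` be a very
general hyperplane (the coefficients `u` are outside countably many proper hypersurfaces).
(1) `V ∩ H` is not empty if `dim V ≥ 1`, its components have dimension `dim V - 1` and the same
smallest special subvariety as `V` (and so the defect `defect V + 1`).
(2) The maximal special subvarieties of `V ∩ H` of defect less than `θ + 1` are the components of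
the sections `A ∩ H` of the maximal special subvarieties `A` of `V` of defect less than `θ` and of
positive dimension. None of these sections is empty.
(3) There are finitely many of the former iff there are finitely many of the latter. In particular
(`θ = defect V`), if `V ∩ H` is irreducible (by the theorem of Bertini it is, if `dim V ≥ 2`), then
Q1 holds for `V ∩ H` if and only if `V` has only finitely many maximal atypical special subvarieties
of positive dimension.

So the sections of `V` by very general linear subspaces of codimension `m` satisfy Q1 iff `V` has
only finitely many maximal atypical special subvarieties of dimension at least `m`; for curves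
(`m = dim V - 1`): iff `V` has only finitely many atypical special divisors.

The main point is the behaviour of all subvarieties, also of those not defined over the field of
definition: if `k` is a countable algebraically closed field over which `V` and all special
subvarieties are defined and the coefficients of `H` are algebraically independent over `k`, then the
Zariski closure over `k` of any subvariety `B` of `V ∩ H` has the same smallest special subvariety
and a larger dimension than `B`. The definitions are in `Pool.Agent.R948.ZPa` and
`Pool.Agent.R370.HS.{A,B,C}`; points of projective space are nonzero vectors up to scalars, subsets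
are given by their cones.
-/

set_option autoImplicit false

open MvPolynomial Pool.Agent.R948.ZP Pool.Agent.R370.HS

/-- **Atypical Hodge loci of very general hyperplane sections.** -/
theorem Pool.Agent.Results.MP_eeb1a4_ag.HyperplaneSections.result
    (K : Type) [Field K] [IsAlgClosed K] [Uncountable K] (ι : Type) [Fintype ι]
    (X : Set (ι → K)) (hX : QuasiProjective X)
    (𝒮 : Set (Set (ι → K))) (h𝒮 : SpecialStructure X 𝒮)
    (T : Set (ι → K)) (hT : T ∈ 𝒮) (V : Set (ι → K)) (hV : Subvariety X V) (hVT : V ⊆ T) :
    ∃ 𝒢 : Set (MvPolynomial ι K), 𝒢.Countable ∧ 0 ∉ 𝒢 ∧
      ∀ u : ι → K, (∀ P ∈ 𝒢, eval u P ≠ 0) →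
        (1 ≤ dim V → ∃ V', IsComponent X V' (V ∩ hyp u)) ∧
        (∀ V', IsComponent X V' (V ∩ hyp u) → dim V' = dim V - 1 ∧ hull 𝒮 V' = hull 𝒮 V) ∧
        ∀ h : Set (ι → K) → ℤ,
          (∀ θ : ℤ, maxSpecial X 𝒮 h (V ∩ hyp u) (θ + 1) =
            {B | ∃ A ∈ maxSpecial X 𝒮 h V θ, 1 ≤ dim A ∧ IsComponent X B (A ∩ hyp u)}) ∧
          (∀ θ : ℤ, ∀ A ∈ maxSpecial X 𝒮 h V θ, 1 ≤ dim A → ∃ B, IsComponent X B (A ∩ hyp u)) ∧
          (∀ θ : ℤ, (maxSpecial X 𝒮 h (V ∩ hyp u) (θ + 1)).Finite ↔
            {A | A ∈ maxSpecial X 𝒮 h V θ ∧ 1 ≤ dim A}.Finite) ∧
          (Subvariety X (V ∩ hyp u) → ((maxAtypical X 𝒮 h (V ∩ hyp u)).Finite ↔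
            {A | A ∈ maxAtypical X 𝒮 h V ∧ 1 ≤ dim A}.Finite)) :=
  sections hX h𝒮 hT hV hVT
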