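import Pool.Agent.R351.GD.H.MtG
import Pool.Agent.R351.GD.H.CntJ
import Pool.Agent.Y119.HA.Nor

/-!
# Polynomial height bounds for the Hodge locus of the hypergeometric variations of Calabi–Yau type

Let `β_1, …, β_m` be rational numbers in `(0, 1)` and `θ = z d/dz`. The hypergeometric operator
`θ^(2m) - z ∏_j (θ + β_j) (θ + 1 - β_j)` has maximally unipotent monodromy at `z = 0` and underlies an irreducible
variation of Hodge structure of rank `2m` and of weight `2m - 1` with all Hodge numbers `h^{p,q} = 1` on the projective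
line minus three points, with generic Mumford–Tate group `GSp(2m)`; it is defined over `ℚ` if the set of the
`exp (2 π i β_j)^{±1}` with multiplicities is Galois stable. In coordinates with respect to the Frobenius basis
`f_0, …, f_{2m-1}` of solutions the step `F^p`, `p ≥ m`, of the Hodge filtration is spanned by the rows
`(θ^i f_0, …, θ^i f_{2m-1})`, `i + p < 2m`. The rational structure is given by an invertible matrix `C`, with periods of
the limiting mixed Hodge structure as entries. We only use that the logarithm of the monodromy at `z = 0` and (up to a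
factor) the intersection form are rational. All special points of these variations are atypical. We prove for `m ≥ 4`
that an algebraic number `ξ` of degree at most `D` and of height at most `|ξ|^D` such that `z = 1 / ξ` is in the Hodge
locus (of all tensor constructions) satisfies `log |ξ| ≤ (D + 2)^c`, for all `D`, uniformly in all rational structures.
-/

set_option autoImplicit false

open PowerSeries

namespace Pool.Agent.Results.MP_eeb1a4_ag.PolynomialHeightBound

/-- the power series `x + ε` in the variable `ε` -/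
noncomputable def shift (x : ℚ) : PowerSeries ℚ := C x + X

/-- `a_k(ε) = ∏_{l < k} ∏_j (l + ε + β_j) (l + ε + 1 - β_j) / (l + 1 + ε)^2`. The series `∑_k a_k(ε) z^(k + ε)` satisfies
`(θ^n - z ∏_j (θ + β_j) (θ + 1 - β_j)) f = ε^n z^ε`, `n = 2m`, hence its coefficients `f_j` at `ε^j` with `j < n` are
solutions of the homogeneous equation. -/
noncomputable def frob {m : ℕ} (β : Fin m → ℚ) (k : ℕ) : PowerSeries ℚ :=
  ∏ l ∈ Finset.range k, ∏ j, (shift (l + β j) * shift (l + 1 - β j) * ((shift (l + 1))⁻¹) ^ 2)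

/-- The row `((θ^i f_j)(1 / ξ))_j`, where `f_j(z)` is the coefficient of `ε^j` in the series `∑_k a_k(ε) z^(k + ε)`,
`z^ε = ∑_a (log z)^a ε^a / a!`, with the value `-l` of `log z`, where `exp l = ξ`. -/
noncomputable def per {m : ℕ} (β : Fin m → ℚ) (ξ l : ℂ) (i : ℕ) : Fin (2 * m) → ℂ := fun j =>
  ∑ a ∈ Finset.range ((j : ℕ) + 1), (-l) ^ a / (a.factorial : ℂ) *
    ∑' k : ℕ, ((coeff ((j : ℕ) - a) (shift k ^ i * frob β k) : ℚ) : ℂ) * (1 / ξ) ^ k

/-- The nilpotent matrix: `exp (2 π i N)` is the local monodromy at `z = 0` in the basis `f_0, …, f_{n-1}`. -/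
def N (n : ℕ) : Matrix (Fin n) (Fin n) ℂ := Matrix.of fun i j => if (j : ℕ) = i + 1 then 1 else 0

/-- the matrix of the flat alternating form in the Frobenius basis -/
def S (n : ℕ) : Matrix (Fin n) (Fin n) ℂ := Matrix.of fun i j => if (i : ℕ) + j + 1 = n then (-1) ^ (i : ℕ) else 0

/-- a rational matrix as a complex matrix -/
def toC {n : ℕ} (M : Matrix (Fin n) (Fin n) ℚ) : Matrix (Fin n) (Fin n) ℂ := M.map fun x : ℚ => (x : ℂ)

/-- The base change `C` from the Frobenius basis to rational coordinates and the rational form `(v, w) ↦ v A wᵀ` on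
`ℚ^n` (row vectors) are a rational structure with a form: the logarithm `2 π i C⁻¹ N C` of the local monodromy is rational
and the form is proportional to the flat form `S`. -/
structure RationalStructure {n : ℕ} (C : Matrix (Fin n) (Fin n) ℂ) (A : Matrix (Fin n) (Fin n) ℚ) : Prop where
  det : C.det ≠ 0
  log : ∃ M : Matrix (Fin n) (Fin n) ℚ, C * toC M = (2 * (Real.pi : ℂ) * Complex.I) • (N n * C)
  form : ∃ κ : ℂ, κ ≠ 0 ∧ C * toC A * C.transpose = κ • S n

/-- `H p = H^{p, n-1-p}`, `p < n = 2m`, are the parts of a Hodge structure of weight `n - 1` on `ℚ^n`, polarised by `± A`,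
the steps `F^p = ⨁_{r ≥ p} H^{r, n-1-r}`, `p ≥ m`, of whose Hodge filtration are the spans of the derivatives of order
`< n - p` of the period vector at the point `z = 1 / ξ` (the other steps are their orthogonal complements). -/
structure IsFibre {m : ℕ} (β : Fin m → ℚ) (ξ l : ℂ) (C : Matrix (Fin (2 * m)) (Fin (2 * m)) ℂ)
    (A : Matrix (Fin (2 * m)) (Fin (2 * m)) ℚ) (H : ℕ → Submodule ℂ (Fin (2 * m) → ℂ)) : Prop where
  fil : ∀ p, m ≤ p → (⨆ r : {r : ℕ // p ≤ r ∧ r < 2 * m}, H r) =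
    Submodule.span ℂ {v | ∃ i : ℕ, i + p < 2 * m ∧ v = Matrix.vecMul (per β ξ l i) C}
  conj : ∀ p < 2 * m, ∀ v ∈ H p, (fun i => star (v i)) ∈ H (2 * m - 1 - p)
  orth : ∀ p < 2 * m, ∀ r < 2 * m, p + r ≠ 2 * m - 1 → ∀ v ∈ H p, ∀ w ∈ H r,
    dotProduct v (Matrix.mulVec (toC A) w) = 0
  pos : ∃ ε : ℂ, (ε = 1 ∨ ε = -1) ∧ ∀ p < 2 * m, ∀ v ∈ H p, v ≠ 0 →
    0 < (ε * (Complex.I ^ p * (-Complex.I) ^ (2 * m - 1 - p)) *
      dotProduct v (Matrix.mulVec (toC A) fun i => star (v i))).re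

/-- The Hodge operator `Φ` is the multiplication by `p` on `H^{p, n-1-p}`; it generates with the scalars the Lie algebra of
the image of the Deligne torus and is the derivative of the cocharacter `z ↦ (z^p on H^{p,q})`. Matrices act on row
vectors from the right. -/
def IsHodgeOperator {m : ℕ} (H : ℕ → Submodule ℂ (Fin (2 * m) → ℂ)) (Φ : Matrix (Fin (2 * m)) (Fin (2 * m)) ℂ) : Prop :=
  ∀ p < 2 * m, ∀ v ∈ H p, Matrix.vecMul v Φ = (p : ℂ) • v

/-- `ξ` is a root of a nonzero integral polynomial of degree at most `g` with coefficients of size at most `|ξ|^A` -/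
def Height (g A : ℕ) (ξ : ℂ) : Prop :=
  ∃ p : Polynomial ℤ, p ≠ 0 ∧ p.natDegree ≤ g ∧ (∀ j, |(p.coeff j : ℝ)| ≤ ‖ξ‖ ^ A) ∧ Polynomial.aeval ξ p = 0

/-- Every rational Lie algebra of matrices whose complexification contains the Hodge operator (for example the Lie algebra
of the Mumford–Tate group of `H`) contains the whole symplectic Lie algebra of the form `A`. -/
def HodgeGeneric {m : ℕ} (A : Matrix (Fin (2 * m)) (Fin (2 * m)) ℚ) (H : ℕ → Submodule ℂ (Fin (2 * m) → ℂ)) : Prop :=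
  ∀ 𝔪 : Submodule ℚ (Matrix (Fin (2 * m)) (Fin (2 * m)) ℚ), (∀ X ∈ 𝔪, ∀ Y ∈ 𝔪, X * Y - Y * X ∈ 𝔪) →
    (∀ Φ, IsHodgeOperator H Φ → Φ ∈ Submodule.span ℂ (toC '' (𝔪 : Set (Matrix (Fin (2 * m)) (Fin (2 * m)) ℚ)))) →
    ∀ X : Matrix (Fin (2 * m)) (Fin (2 * m)) ℚ, X * A + A * X.transpose = 0 → X ∈ 𝔪

/-- The point `1 / ξ` is in the Hodge locus for some choice of the rational structure: there are a logarithm `l` of `ξ`, a
rational structure `(C, A)` and a Hodge structure polarised by `± A` which is the fibre at `1 / ξ` and is not generic. -/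
def Special {m : ℕ} (β : Fin m → ℚ) (ξ : ℂ) : Prop :=
  ∃ (l : ℂ) (C : Matrix (Fin (2 * m)) (Fin (2 * m)) ℂ) (A : Matrix (Fin (2 * m)) (Fin (2 * m)) ℚ)
    (H : ℕ → Submodule ℂ (Fin (2 * m) → ℂ)), Complex.exp l = ξ ∧ RationalStructure C A ∧ IsFibre β ξ l C A H ∧
    ¬ HodgeGeneric A H

/-- The set `B_D` of the roots of nonzero integral polynomials of degree `≤ D` with leading coefficient of absolute value
`≤ 2^D` all of whose roots `ξ'` with `|ξ'| > 1` give points `1 / ξ'` in the Hodge locus, for some rational structures which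
may depend on the root. It contains the algebraic integers of degree `≤ D` all of whose conjugates outside of the closed
unit disc give such points. -/
def B {m : ℕ} (β : Fin m → ℚ) (D : ℕ) : Set ℂ :=
  {ξ : ℂ | ∃ p : Polynomial ℤ, p ≠ 0 ∧ p.natDegree ≤ D ∧ |p.leadingCoeff| ≤ 2 ^ D ∧ Polynomial.aeval ξ p = 0 ∧
    ∀ ξ' : ℂ, Polynomial.aeval ξ' p = 0 → 1 < ‖ξ'‖ → Special β ξ'}

theorem N_eq (n : ℕ) : N n = Pool.Agent.Y113.MT.NN ℂ n := rfl

theorem S_eq (n : ℕ) : S n = Pool.Agent.Y113.MT.SS ℂ n := rfl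

theorem toC_eq {n : ℕ} (M : Matrix (Fin n) (Fin n) ℚ) : toC M = Pool.Agent.Y113.MT.cq M := rfl

/-- Let `m ≥ 4` and let `β_1, …, β_m` be rational numbers in `(0, 1)`. There is a constant `c` such that for all `D`:

(1) if `ξ` is a root of a nonzero integral polynomial of degree `≤ D` with coefficients of absolute value at most `|ξ|^D`
and the fibre of the hypergeometric variation `θ^(2m) - z ∏_j (θ + β_j) (θ + 1 - β_j)` at the point `z = 1 / ξ` is in the
Hodge locus for some polarised rational structure (which may depend on `ξ`), then `|ξ| < 2^((D+2)^c)`; there are at most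
`2^((D+2)^c)` such numbers with `|ξ| > 1`;

(2) the set `B_D` of the roots of nonzero integral polynomials of degree `≤ D` with leading coefficient at most `2^D` all of
whose roots outside of the closed unit disc give points of the Hodge locus has at most `2^((D+2)^c)` elements, of absolute
value less than `2^((D+2)^c)`; it contains all algebraic integers `ξ` of degree `≤ D` such that the fibres at all the
points `1 / ξ'` in the unit disc, `ξ'` conjugate to `ξ`, are in the Hodge locus.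

(3) Rational structures exist. -/
theorem result {m : ℕ} (hm : 4 ≤ m) (β : Fin m → ℚ) (hβ : ∀ j, 0 < β j ∧ β j < 1) :
    (∃ c : ℕ, ∀ D : ℕ,
      (∀ ξ : ℂ, Height D D ξ → Special β ξ → ‖ξ‖ < 2 ^ ((D + 2) ^ c)) ∧
      {ξ : ℂ | 1 < ‖ξ‖ ∧ Height D D ξ ∧ Special β ξ}.Finite ∧
      {ξ : ℂ | 1 < ‖ξ‖ ∧ Height D D ξ ∧ Special β ξ}.ncard ≤ 2 ^ ((D + 2) ^ c) ∧
      (∀ ξ ∈ B β D, ‖ξ‖ < 2 ^ ((D + 2) ^ c)) ∧ (B β D).Finite ∧ (B β D).ncard ≤ 2 ^ ((D + 2) ^ c) ∧
      ∀ ξ : ℂ, IsIntegral ℤ ξ → (minpoly ℚ ξ).natDegree ≤ D →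
        (∀ ξ' : ℂ, Polynomial.aeval ξ' (minpoly ℚ ξ) = 0 → 1 < ‖ξ'‖ → Special β ξ') → ξ ∈ B β D) ∧
    ∃ (C : Matrix (Fin (2 * m)) (Fin (2 * m)) ℂ) (A : Matrix (Fin (2 * m)) (Fin (2 * m)) ℚ), RationalStructure C A := by
  have hβ' : ∀ j, ∀ a : ℤ, β j ≠ a := by
    intro j a h
    have h1 := hβ j
    rw [h] at h1
    have h2 : (0 : ℤ) < a := by exact_mod_cast h1.1
    have h3 : a < (1 : ℤ) := by exact_mod_cast h1.2
    omega
  have hpi : (2 * (Real.pi : ℂ) * Complex.I) ≠ 0 := Complex.two_pi_I_ne_zero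
  have key : ∃ t0 : ℕ, ∀ (D : ℕ) (ξ : ℂ), (2 : ℝ) ^ ((D + 2) ^ t0) ≤ ‖ξ‖ → Height D D ξ → ¬ Special β ξ := by
    obtain ⟨t0, ht0⟩ := Pool.Agent.R351.GD.H.main_mtg hm hβ'
    refine ⟨t0, ?_⟩
    rintro D ξ hξ hht ⟨l, C, A, H, -, ⟨hdet, ⟨M, hM⟩, κ, hκ, hA⟩, hH, hgen⟩
    exact hgen fun 𝔪 hbr hΦ X hX => ht0 D ξ l hξ hht C M A _ κ hdet hpi hM hκ hA
      (fun p => ⨆ r : {r : ℕ // p ≤ r ∧ r < 2 * m}, H r) H (fun p hp => hH.fil p hp)
      ⟨fun _ => rfl, hH.conj, hH.orth, hH.pos⟩ 𝔪 hbr hΦ X hX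
  refine ⟨?_, ?_⟩
  · obtain ⟨t0, ht0⟩ := key
    -- constants
    obtain ⟨c₁, hc₁⟩ : Pool.Agent.R351.GD.PB fun D => (3 * D + 2) ^ t0 :=
      (((Pool.Agent.R351.GD.PB.const 3).mul Pool.Agent.R351.GD.PB.id).add (Pool.Agent.R351.GD.PB.const 2)).pow t0
    obtain ⟨c₂, hc₂⟩ : Pool.Agent.R351.GD.PB fun D => (D + ((D + 2) ^ c₁ * D + D) + 2) * (D + 1) + D := by
      have h1 := (Pool.Agent.R351.GD.PB.id.add (Pool.Agent.R351.GD.PB.const 2)).pow c₁
      exact (((Pool.Agent.R351.GD.PB.id.add ((h1.mul Pool.Agent.R351.GD.PB.id).add Pool.Agent.R351.GD.PB.id)).add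
        (Pool.Agent.R351.GD.PB.const 2)).mul (Pool.Agent.R351.GD.PB.id.add (Pool.Agent.R351.GD.PB.const 1))).add
        Pool.Agent.R351.GD.PB.id
    have hup : ∀ {D a b : ℕ}, a ≤ b → (D + 2) ^ a ≤ (D + 2) ^ b := fun h => Nat.pow_le_pow_right (by omega) h
    have h2up : ∀ {a b : ℕ}, a ≤ b → (2 : ℝ) ^ a ≤ 2 ^ b := fun h => pow_le_pow_right₀ (by norm_num) h
    -- points
    have hpt : ∀ (D : ℕ) (ξ : ℂ), Height D D ξ → Special β ξ → ‖ξ‖ < 2 ^ ((D + 2) ^ c₁) := by
      intro D ξ hht hsp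
      by_contra hcon
      push Not at hcon
      refine ht0 D ξ ((h2up ?_).trans hcon) hht hsp
      exact (Nat.pow_le_pow_left (by omega) _).trans (hc₁ D)
    -- roots
    have hrt : ∀ (D : ℕ) (p : Polynomial ℤ), p ≠ 0 → p.natDegree ≤ D → |p.leadingCoeff| ≤ 2 ^ D →
        (∀ ξ' : ℂ, Polynomial.aeval ξ' p = 0 → 1 < ‖ξ'‖ → Special β ξ') → ∀ z : ℂ, Polynomial.aeval z p = 0 →
        ‖z‖ < 2 ^ ((D + 2) ^ c₁) := by
      intro D p hp0 hpd hlc hall z hz
      by_contra hcon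
      push Not at hcon
      have hfin : {z : ℂ | Polynomial.aeval z p = 0}.Finite := by
        refine (Finset.finite_toSet (p.map (Int.castRingHom ℂ)).roots.toFinset).subset fun w hw => ?_
        rw [Finset.mem_coe, Multiset.mem_toFinset, Polynomial.mem_roots
          ((Polynomial.map_ne_zero_iff Int.cast_injective).2 hp0), Polynomial.IsRoot.def, Polynomial.eval_map]
        exact hw
      obtain ⟨ξ', hξ', hmax⟩ := Set.exists_max_image _ (fun w : ℂ => ‖w‖) hfin ⟨z, hz⟩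
      have h1 : (2 : ℝ) ^ ((D + 2) ^ c₁) ≤ ‖ξ'‖ := hcon.trans (hmax z hz)
      have h2 : (2 : ℝ) ≤ ‖ξ'‖ := Pool.Agent.R351.GD.H.two_le h1
      exact ht0 (3 * D) ξ' ((h2up (hc₁ D)).trans h1)
        (Pool.Agent.R351.GD.H.ht_max hp0 hpd hlc hξ' (fun w hw => hmax w hw) h2) (hall ξ' hξ' (by linarith))
    refine ⟨c₁ + c₂, fun D => ?_⟩
    have hB : ∀ ξ ∈ B β D, ‖ξ‖ < 2 ^ ((D + 2) ^ c₁) := by
      rintro ξ ⟨p, hp0, hpd, hlc, hξ, hall⟩
      exact hrt D p hp0 hpd hlc hall ξ hξ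
    obtain ⟨f1, f2⟩ := Pool.Agent.R351.GD.H.card_RB D ((D + 2) ^ c₁) {ξ : ℂ | 1 < ‖ξ‖ ∧ Height D D ξ ∧ Special β ξ}
      fun ξ hξ => Pool.Agent.R351.GD.H.mem_RB' hξ.2.1 (hpt D ξ hξ.2.1 hξ.2.2).le
    obtain ⟨f3, f4⟩ := Pool.Agent.R351.GD.H.card_RB D ((D + 2) ^ c₁) (B β D) (by
      rintro ξ ⟨p, hp0, hpd, hlc, hξ, hall⟩
      exact Pool.Agent.R351.GD.H.mem_RB hp0 hpd hlc (fun z hz => (hrt D p hp0 hpd hlc hall z hz).le) hξ)
    have hcc : 2 ^ ((D + ((D + 2) ^ c₁ * D + D) + 2) * (D + 1) + D) ≤ 2 ^ ((D + 2) ^ (c₁ + c₂)) :=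
      Nat.pow_le_pow_right (by norm_num) ((hc₂ D).trans (hup (by omega)))
    refine ⟨fun ξ h1 h2 => lt_of_lt_of_le (hpt D ξ h1 h2) (h2up (hup (by omega))), f1, f2.trans hcc,
      fun ξ hξ => lt_of_lt_of_le (hB ξ hξ) (h2up (hup (by omega))), f3, f4.trans hcc, ?_⟩
    intro ξ hint hdeg hall
    have hmin : minpoly ℚ ξ = (minpoly ℤ ξ).map (algebraMap ℤ ℚ) := minpoly.isIntegrallyClosed_eq_field_fractions' ℚ hint
    have hmon : (minpoly ℤ ξ).Monic := minpoly.monic hint
    have hd : (minpoly ℤ ξ).natDegree = (minpoly ℚ ξ).natDegree := by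
      rw [hmin, hmon.natDegree_map]
    have hev : ∀ z : ℂ, Polynomial.aeval z (minpoly ℚ ξ) = Polynomial.aeval z (minpoly ℤ ξ) := fun z => by
      rw [hmin, Polynomial.aeval_map_algebraMap]
    refine ⟨minpoly ℤ ξ, hmon.ne_zero, by rw [hd]; exact hdeg, ?_, minpoly.aeval ℤ ξ, fun ξ' hξ' h1 => hall ξ' ?_ h1⟩
    · rw [hmon.leadingCoeff, abs_one]
      exact one_le_pow₀ (by norm_num)
    · rw [hev]
      exact hξ'
  · refine ⟨Matrix.diagonal fun i : Fin (2 * m) => ((2 * (Real.pi : ℂ) * Complex.I)⁻¹) ^ (i : ℕ),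
      Matrix.of fun i j => if (i : ℕ) + j + 1 = 2 * m then (-1) ^ (i : ℕ) else 0, ?_, ⟨Matrix.of fun i j =>
        if (j : ℕ) = i + 1 then 1 else 0, ?_⟩, ((2 * (Real.pi : ℂ) * Complex.I)⁻¹) ^ (2 * m - 1),
        pow_ne_zero _ (inv_ne_zero hpi), ?_⟩
    · rw [Matrix.det_diagonal]
      exact Finset.prod_ne_zero_iff.2 fun i _ => pow_ne_zero _ (inv_ne_zero hpi)
    · ext i j
      rw [Matrix.diagonal_mul, Matrix.smul_apply, Matrix.mul_diagonal, smul_eq_mul]
      unfold N toC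
      rw [Matrix.map_apply, Matrix.of_apply, Matrix.of_apply]
      by_cases h : (j : ℕ) = i + 1
      · rw [if_pos h, if_pos h, h, pow_succ]
        push_cast
        field_simp
      · rw [if_neg h, if_neg h]
        push_cast
        ring
    · ext i j
      rw [Matrix.diagonal_transpose, Matrix.mul_diagonal, Matrix.diagonal_mul, Matrix.smul_apply, smul_eq_mul]
      unfold S toC
      rw [Matrix.map_apply, Matrix.of_apply, Matrix.of_apply]
      by_cases h : (i : ℕ) + j + 1 = 2 * m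
      · rw [if_pos h, if_pos h]
        have : 2 * m - 1 = i + j := by omega
        rw [this, pow_add]
        push_cast
        ring
      · rw [if_neg h, if_neg h]
        push_cast
        ring

end Pool.Agent.Results.MP_eeb1a4_ag.PolynomialHeightBound
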