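import Pool.Agent.R424.TG.Ell
import Pool.Agent.R424.TG.Hdg

/-!
# MP_eeb1a4_ag: Zilber-Pink for the variations of mixed Hodge structure of almost all members of
arbitrary families, over an elliptic curve, of tuples of elliptic curves and invertible functions

**The base.** Let `a, b` be algebraic numbers with `4 a³ + 27 b² ≠ 0` and let `Curve a b` be the set of
the affine points `p = (x, y)` of the elliptic curve `y² = x³ + a x + b`. At a point `Q` of it the
function `loc Q`, which is `x - x(Q)` if `y(Q) ≠ 0` and `y` if `y(Q) = 0`, is a local parameter, and a
function `c ∈ ℂ[x, y]` has the order `e` at `Q` if `c = loc^e g / h` on the curve with polynomials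
`g, h` in `x, y` which do not vanish at `Q` and whose coefficients are algebraic over a given
countable field `K ⊂ ℂ` (`HasOrder`).

**The variations.** Let `P` be a system of polynomials in `s_1, …, s_N` with coefficients in
`ℂ[x, y]`, and let `A_i`, `B_i` (`i ≤ n`) and `U_j` (`j ≤ k`) be polynomials of this kind. For
`p ∈ Curve a b` let `S_p ⊂ ℂ^N` be the set of the points `s` with `P(s) = 0`,
`4 A_i(s)³ + 27 B_i(s)² ≠ 0` for all `i` and `U_j(s) ≠ 0` for all `j` (`OnS`; the coefficients are
evaluated at `p`). Over `S_p` there are the elliptic curves

  `E_i : Y² = X³ + A_i X + B_i`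

and the invertible functions `U_j`, which give extensions of `ℤ` by `ℤ(1)` (Kummer variations); the
sum `V_p` of the variations `R¹π_{i*} ℤ` and of these extensions is an admissible graded-polarizable
variation of mixed Hodge structure (on the smooth part of `S_p`, if `S_p` is not smooth). Every family
of `n`-tuples of elliptic curves and `k`-tuples of invertible functions over varieties `S_p`
depending on a point of the elliptic curve is of this form after shrinking the `S_p`. By the
elliptic modular function `jj = j = E₄³ / Δ` and the exponential function the quotient `Γ \ D` of the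
period domain (`D` is the product of `n` upper half planes and `ℂ^k`, `Γ = SL_2(ℤ)^n × ℤ^k`) is
identified with `Y(1)^n × G_m^k = ℂ^n × (ℂ^×)^k`, and the period map `Φ` is given by the
`j`-invariants `6912 A_i³ / (4 A_i³ + 27 B_i²)` and the functions `U_j` (`period`). The Hodge
subvarieties `Γ' \ D'` of `Γ \ D` are the products `Z × C` of a special subvariety `Z` of `Y(1)^n`
(`SpecialVariety`) and a torsion coset `C`. Here `Z.locus` is the set of the points `x` with `x_i` a
constant for the constant coordinates, and `x_i = j (g_i z_c)` for the coordinates of class `c`,
where `z_1, …, z_r` are free in the upper half plane and `g_i` is a fixed integral matrix of positive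
determinant. More generally the constants can be special or integral over the ring `ℤ[Γ]` generated
by a given finite set `Γ` of numbers algebraic over `K`, and `C` can be a coset of an algebraic
subgroup by a point whose coordinates are units over `ℤ[Γ]`.

**Tropicalization.** Let `E` be a finite system of polynomials in `u_1, …, u_{n+k}`, `s_1, …, s_N` with
coefficients in `ℂ[x, y]`, which vanish at all points `(Φ(s), s)`, `s ∈ S_p`. For instance `E` consists
of `P`, of the polynomials `(4 A_i³ + 27 B_i²) u_i - 6912 A_i³` and of `u_{n+j} - U_j`, but one can add
other polynomials with this property. Let `Q_1, …, Q_M` be points of the elliptic curve with algebraic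
coordinates, and let `e l q β` be the order at `Q_l` of the coefficient of the monomial with the
exponent `β` of the `q`-th polynomial of `E`. The tropicalization at `Q_l` is the set of the points `w`
of `(ℚ ∪ {∞})^(n+k+N)` such that for every polynomial of the system the minimum of the numbers
`e l q β + β · w` is attained at two different exponents or is infinite (`TropAt`).

**Types of special subvarieties.** The product `Z × C` has a type `(cls, d, L)`: the partition `cls` of
the coordinates of `Y(1)^n` which are not constant on `Z` into `r = dim Z` classes, the determinants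
`d_i > 0` of the matrices which define `Z`, and the linear subspace `L` of `ℚ^k`, of dimension `dim C`,
which is orthogonal to the characters constant on `C`. A point `w` is compatible with the type
(`Compatible`) if `w_i ≥ 0` for the constant coordinates, for coordinates `i`, `j` in the same class
either `w_i ≥ 0` and `w_j ≥ 0`, or `w_i < 0`, `w_j < 0` and `d_i d_j w_i w_j` is the square of a rational
number, and the torus coordinates of `w` are a vector in `L`.

**Theorem.** Let `m` be an integer, the dimension of `Φ(S_p)`. Suppose that for every type of dimension
`r + dim L < n + k - m` there is at least one `l` such that the tropicalization at `Q_l` contains no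
compatible point. Then for every number field `F` and for all but finitely many of the points `p` of the
elliptic curve over `F` every irreducible constructible subset `W` of `Φ(S_p) ∩ Γ' \ D'` satisfies
`dim W + (n + k - m) ≤ dim Γ' \ D'` (`NoAtypicalHodge`), and the same bound holds for the
transcendence degrees over `K` of the points of `Φ(S_p) ∩ Γ' \ D'`.

This says that `codim Φ(Z) ≥ codim Γ' \ D'`, the codimension of `Φ(Z)` being taken in `Φ(S_p)`, for all
special subvarieties `Z` of `S_p` for `V_p` (`Z` a component of `Φ⁻¹(Γ' \ D')`), if `dim Φ(S_p) = m`:
the atypical Hodge locus of `V_p` is empty. For `Z = S_p` one gets that `Φ(S_p)` is contained in no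
proper Hodge subvariety if `n + k > m`.

Earlier files: the starting files `MP_130685_nt.FamiliesOverEllipticCurves` and
`MP_b7926e_nt.EllipticBase` treat families of the special form `c_i(p) s_i = A_i(y) / B_i(y)` in
`Y(1)^n`, where at each of `n (n - 1) / 2 + 1` points `Q_l` no point lies on `m + 1` of the divisors of
the `A_i / B_i` and all `c_i` vanish, with independent orders, and families in tori (`n = 0` and
`S_p` closed in the torus). The file `RandomVariations` treats a positive proportion of the variations
with integral coefficients over a fixed base. Here the family is arbitrary, the condition is a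
condition on the tropicalizations only, in which different points `Q_l` can exclude different types
of special subvarieties, and one point of the elliptic curve is sufficient for each type.

The proof combines Siegel's theorem on integral points (`near_all` of a starting file: all but
finitely many points `p` over `F` are near to `Q_l` at some place with a large residue characteristic,
for all `l`) with a local criterion: the values of the coordinates of a point `(Φ(s), s)` at this
place can be replaced by rational numbers, by linear programming, and this gives a point of the
tropicalization.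
-/

set_option autoImplicit false

namespace Pool.Agent.Results.MP_eeb1a4_ag.TropicalEllipticFamilies

open MvPolynomial Pool.Agent.R424.TG
open Pool.Agent.Y199.SG.ZPZ (Curve HasOrder)

/-- Zilber-Pink for the variations of mixed Hodge structure of the members of arbitrary families,
over an elliptic curve, of `n`-tuples of elliptic curves and `k`-tuples of invertible functions. -/
theorem result (K : Subfield ℂ) [Countable K] (κ₀ κ : Type) [Finite κ] (n k N m M : ℕ)
    (a b : ℂ) (ha : IsAlgebraic ℚ a) (hb : IsAlgebraic ℚ b) (hab : 4 * a ^ 3 + 27 * b ^ 2 ≠ 0)
    (P : κ₀ → MvPolynomial (Fin N) (MvPolynomial (Fin 2) ℂ))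
    (A B : Fin n → MvPolynomial (Fin N) (MvPolynomial (Fin 2) ℂ))
    (U : Fin k → MvPolynomial (Fin N) (MvPolynomial (Fin 2) ℂ))
    (E : κ → MvPolynomial ((Fin n ⊕ Fin k) ⊕ Fin N) (MvPolynomial (Fin 2) ℂ))
    (hE : ∀ p ∈ Curve a b, ∀ s : Fin N → ℂ, OnS (eval p) P A B U s → ∀ q,
      eval₂ (eval p) (Sum.elim (period (eval p) A B U s) s) (E q) = 0)
    (Q : Fin M → Fin 2 → ℂ) (hQ : ∀ l, Q l ∈ Curve a b) (hQa : ∀ l i, IsAlgebraic ℚ (Q l i))
    (e : Fin M → κ → (((Fin n ⊕ Fin k) ⊕ Fin N) →₀ ℕ) → ℕ)
    (he : ∀ l q, ∀ β ∈ (E q).support, HasOrder K a b (Q l) ((E q).coeff β) (e l q β))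
    (hgen : ∀ (r : ℕ) (cls : Fin n → Option (Fin r)) (d : Fin n → ℕ)
      (L : Submodule ℚ (Fin k → ℚ)), (∀ i, 0 < d i) → r + Module.finrank ℚ L + m < n + k →
      ∃ l, ∀ w, (∀ q, TropAt (E q).support (e l q) w) → ¬ Compatible cls d L w)
    (Γ : Finset ℂ) (hΓ : ∀ γ ∈ Γ, IsAlgebraic K γ) (F : IntermediateField ℚ ℂ)
    [FiniteDimensional ℚ F] :
    {p : Fin 2 → ℂ | p ∈ Curve a b ∧ (∀ i, p i ∈ F) ∧
      ¬ NoAtypicalHodge (algebraMap (Algebra.adjoin ℤ (Γ : Set ℂ)) ℂ) K m
        (image (eval p) P A B U)}.Finite := by
  refine (mainE K κ n k N m M a b ha hb hab E Q hQ hQa e he hgen Γ hΓ F).subset ?_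
  rintro p ⟨hp, hpF, hno⟩
  refine ⟨hp, hpF, fun h => hno (noAtypicalHodge_of h ?_)⟩
  rintro x ⟨s, hs, rfl⟩
  exact ⟨fun j => hs.2.2 j, s, hE p hp s hs⟩

end Pool.Agent.Results.MP_eeb1a4_ag.TropicalEllipticFamilies
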